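import Pool.Agent.MP_c1891a_nt.H79.Spec

/-!
The logarithm of an integer polynomial taking the value one at zero and at `c`.
-/

set_option autoImplicit false

namespace Pool.Agent.MP_c1891a_nt.H3

open Finset Polynomial Pool.Agent.MP_c1891a_nt.H79

namespace Log

theorem logder {ι : Type} (I : Finset ι) (u : ι → ℂ) (T : ℕ) :
    X ^ T ∣ derivative (∏ i ∈ I, (1 + C (u i) * X)) - (∏ i ∈ I, (1 + C (u i) * X)) *
      ∑ i ∈ I, C (u i) * ∑ k ∈ range T, (-(C (u i) * X)) ^ k := by
  classical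
  induction I using Finset.induction_on with
  | empty => simp
  | insert j I hj ih =>
    have h1 := mul_neg_geom_sum (-(C (u j) * X)) T
    have h2 : (X : ℂ[X]) ^ T ∣ (-(C (u j) * X)) ^ T :=
      pow_dvd_pow_of_dvd (dvd_neg.2 (dvd_mul_left _ _)) T
    rw [prod_insert hj, sum_insert hj, derivative_mul]
    convert dvd_add (h2.mul_left (C (u j) * ∏ i ∈ I, (1 + C (u i) * X)))
      (ih.mul_left (1 + C (u j) * X)) using 1
    simp only [derivative_add, derivative_one, derivative_mul, derivative_C, derivative_X]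
    linear_combination (-(C (u j) * ∏ i ∈ I, (1 + C (u i) * X))) * h1

theorem coeff_log {ι : Type} (I : Finset ι) (u : ι → ℂ) (T : ℕ) {U : ℂ[X]} (hX : X ∣ U)
    (hU : 1 + U = ∏ i ∈ I, (1 + C (u i) * X)) {n : ℕ} (hn : n < T) :
    (∑ k ∈ range T, C ((-1) ^ k / ((k : ℂ) + 1)) * U ^ (k + 1)).coeff n
      = (-1) ^ (n + 1) * (∑ i ∈ I, u i ^ n) / (n : ℂ) := by
  set L := ∑ k ∈ range T, C ((-1) ^ k / ((k : ℂ) + 1)) * U ^ (k + 1) with hL
  rcases n with _ | n
  · rw [Nat.cast_zero, div_zero, ← X_dvd_iff]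
    exact dvd_sum fun k _ => (dvd_pow hX k.succ_ne_zero).mul_left _
  have h1 : derivative L = derivative U * ∑ k ∈ range T, (-U) ^ k := by
    rw [hL, derivative_sum, mul_sum]
    refine sum_congr rfl fun k _ => ?_
    have h : C ((-1) ^ k / ((k : ℂ) + 1)) * C ((k : ℂ) + 1) = (-1) ^ k := by
      rw [← C_mul, div_mul_cancel₀ _ (Nat.cast_add_one_ne_zero k)]
      simp
    rw [derivative_C_mul, derivative_pow_succ, neg_pow U, ← h]
    ring
  have h2 := logder I u T
  rw [← hU, derivative_add, derivative_one, zero_add] at h2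
  have h3 : (X : ℂ[X]) ^ T ∣ (1 + U) * (derivative L -
      ∑ i ∈ I, C (u i) * ∑ k ∈ range T, (-(C (u i) * X)) ^ k) := by
    convert dvd_sub h2 ((pow_dvd_pow_of_dvd (dvd_neg.2 hX) T).mul_left (derivative U)) using 1
    rw [h1]
    linear_combination derivative U * mul_neg_geom_sum (-U) T
  have h4 : IsCoprime (X : ℂ[X]) (1 + U) := by
    obtain ⟨B, rfl⟩ := hX
    exact ⟨-B, 1, by ring⟩
  have h5 := X_pow_dvd_iff.1 (h4.pow_left.dvd_of_dvd_mul_left h3) n (by omega)
  have h6 : ∀ i, (C (u i) * ∑ k ∈ range T, (-(C (u i) * X)) ^ k).coeff n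
      = (-1) ^ n * u i ^ (n + 1) := fun i => by
    simp only [← neg_mul, ← C_neg, mul_pow, ← C_pow, coeff_C_mul, finsetSum_coeff, coeff_X_pow,
      mul_ite, mul_one, mul_zero, sum_ite_eq, mem_range, if_pos (show n < T by omega)]
    rw [neg_pow]
    ring
  rw [coeff_sub, coeff_derivative, sub_eq_zero, finsetSum_coeff I, sum_congr rfl fun i _ => h6 i,
    ← mul_sum] at h5
  rw [eq_div_iff (Nat.cast_ne_zero.2 n.succ_ne_zero), Nat.cast_succ, h5]
  ring

end Log

theorem slog : SLog := by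
  intro ι I u A c hc hA h1 T
  have h0 : X ∣ A - 1 := by
    have := congrArg (eval 0) hA
    rw [← coeff_zero_eq_eval_zero, coeff_map, eval_prod] at this
    rw [X_dvd_iff, coeff_sub, coeff_one_zero, sub_eq_zero]
    simpa using this
  obtain ⟨B, hB⟩ := h0
  obtain ⟨G, rfl⟩ : X - C c ∣ B := by
    have := congrArg (eval c) hB
    rw [dvd_iff_isRoot]
    simpa [h1, hc] using this
  let W : ℚ[X] := ∑ k ∈ range T, C ((-1) ^ k / ((k : ℚ) + 1)) *
    (X ^ (k + 1) * ((X - C c) ^ k * G ^ (k + 1))).map (Int.castRingHom ℚ)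
  refine ⟨W, fun n => ?_, fun n hn => ?_⟩
  · suffices h : (Nat.lcmUpto n : ℚ) * W.coeff n ∈ (Int.castRingHom ℚ).range by
      obtain ⟨m, hm⟩ := h
      exact ⟨m, by rw [coeff_coe, ← hm, eq_intCast]⟩
    rw [finsetSum_coeff, mul_sum]
    refine sum_mem fun k _ => ?_
    rw [coeff_C_mul, coeff_map, coeff_X_pow_mul']
    split_ifs with h
    · obtain ⟨m, hm⟩ : k + 1 ∣ Nat.lcmUpto n :=
        Finset.dvd_lcm (f := id) (mem_Icc.2 ⟨k.succ_pos, h⟩)
      refine ⟨m * (-1) ^ k * ((X - C c) ^ k * G ^ (k + 1)).coeff (n - (k + 1)), ?_⟩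
      have := Nat.cast_add_one_ne_zero (R := ℚ) k
      rw [hm]
      simp only [eq_intCast]
      push_cast
      field_simp
    · simp
  · have h2 : (PowerSeries.X - PowerSeries.C (c : ℚ)) * (W : PowerSeries ℚ)
        = (((X - C (c : ℚ)) * W : ℚ[X]) : PowerSeries ℚ) := by
      rw [Polynomial.coe_mul, Polynomial.coe_sub, coe_X, coe_C]
    have h3 := Log.coeff_log I u T (U := (A - 1).map (Int.castRingHom ℂ))
      (by rw [hB, Polynomial.map_mul, map_X]; exact dvd_mul_right _ _)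
      (by rw [← hA]; simp) hn
    rw [h2, coeff_coe, ← h3, ← eq_ratCast (algebraMap ℚ ℂ), ← coeff_map, hB]
    congr 1
    rw [mul_sum, Polynomial.map_sum]
    refine sum_congr rfl fun k _ => ?_
    have h4 : (algebraMap ℚ ℂ).comp (Int.castRingHom ℚ) = Int.castRingHom ℂ := RingHom.ext_int _ _
    simp only [Polynomial.map_mul, Polynomial.map_pow, Polynomial.map_sub, map_X, map_C,
      Polynomial.map_map, h4, eq_ratCast, eq_intCast, mul_pow, Polynomial.map_intCast, map_intCast]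
    push_cast
    ring

end Pool.Agent.MP_c1891a_nt.H3
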